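import Pool.Agent.H140.BM.Main

/-!
The inequality `c₂(M) ≤ a(M)` fails for an Eulerian binary matroid of rank `8` with `24` elements.

`M` is the union of two copies of `N`, where `N` is `𝔽₂⁴` minus a plane, in complementary
subspaces of `𝔽₂⁸`. It is the disjoint union of three bases, so `a(M) = 3`. Every circuit meets `M`
in at most `8` elements, so three circuits would have to meet it in exactly `8` elements each and
each of them would have exactly one element outside of `M`. But the number of incidences outside
of `M` is even. Four circuits suffice: the three bases with their sums `s₁, s₂, s₃` added, and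
`{s₁, s₂, s₃}`.
-/

set_option autoImplicit false

namespace Pool.Agent.Results.MP_a03d73_co.CircuitsExceedArboricity

open Pool.Agent.H140.BM

theorem result : ∃ M : Finset (Fin 8 → ZMod 2), (0 : Fin 8 → ZMod 2) ∉ M ∧
    ∑ x ∈ M, x = 0 ∧ arboricity M = 3 ∧ c2 M = 4 :=
  ⟨M0, zero_notMem_M0, sum_M0, arboricity_M0, c2_M0⟩

end Pool.Agent.Results.MP_a03d73_co.CircuitsExceedArboricity
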